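import Mathlib

namespace Pool.Agent.Results.MP_24ecc9_an.No

open Set Filter Metric Topology
open scoped ENNReal

section Defs
variable {X : Type} [MetricSpace X]

/-- normal fuzzy sets -/
def IsFuzzy (u : X → ℝ) : Prop :=
  (∀ x, u x ∈ Icc (0 : ℝ) 1) ∧ UpperSemicontinuous u ∧ (∃ x, u x = 1) ∧
    IsCompact (closure {x | 0 < u x})

/-- Zadeh extension (the supremum of the empty set of reals is `0`) -/
noncomputable def zadeh (f : X → X) (u : X → ℝ) : X → ℝ := fun y => sSup (u '' {x | f x = y})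

/-- endograph in `X × [0,1]`, seen inside `X × ℝ` with the max metric -/
def endo (u : X → ℝ) : Set (X × ℝ) := {q | q.2 ∈ Icc (0 : ℝ) 1 ∧ q.2 ≤ u q.1}

/-- endograph distance -/
noncomputable def dE (u v : X → ℝ) : ℝ≥0∞ := hausdorffEDist (endo u) (endo v)

/-- the Zadeh extension has a dense proximal relation for the endograph metric -/
def DenseProxF (f : X → X) : Prop :=
  ∀ u v : X → ℝ, IsFuzzy u → IsFuzzy v → ∀ ε : ℝ≥0∞, 0 < ε →
    ∃ u' v' : X → ℝ, IsFuzzy u' ∧ IsFuzzy v' ∧ max (dE u u') (dE v v') < ε ∧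
      liminf (fun n => dE ((zadeh f)^[n] u') ((zadeh f)^[n] v')) atTop = 0

/-- the hyperextension has a dense proximal relation for the Hausdorff metric -/
def DenseProxK (f : X → X) : Prop :=
  ∀ K L : Set X, K.Nonempty → IsCompact K → L.Nonempty → IsCompact L → ∀ ε : ℝ≥0∞, 0 < ε →
    ∃ K' L' : Set X, K'.Nonempty ∧ IsCompact K' ∧ L'.Nonempty ∧ IsCompact L' ∧
      max (hausdorffEDist K K') (hausdorffEDist L L') < ε ∧
      liminf (fun n => hausdorffEDist ((fun A => f '' A)^[n] K') ((fun A => f '' A)^[n] L')) atTop = 0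

end Defs

/-! ### labels -/

def idx (c : ℕ → Fin 4) : ℕ → ℕ
  | 0 => 0
  | s + 1 => 3 * idx c s + (c s).val % 3

def lab (b : Bool) (j : ℕ) : ℕ :=
  if b then (if j % 3 = 1 then 2 * (j / 3) - 1 else 2 * (j / 3) + 2)
  else (if j % 3 = 2 then 2 * (j / 3) else 2 * (j / 3) + 1)

lemma lab_cover (b b' : Bool) (j : ℕ) : ∃ i ≤ j + 5, lab b j = lab b' i := by
  cases b <;> cases b'
  · exact ⟨j, by omega, rfl⟩
  · by_cases h : j % 3 = 2
    · by_cases h0 : j / 3 = 0
      · exact ⟨1, by omega, by simp [lab, h, h0]⟩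
      · refine ⟨3 * (j / 3 - 1), by omega, ?_⟩
        simp only [lab, h, Bool.false_eq_true, if_false, if_true]
        rw [if_neg (by omega)]; omega
    · refine ⟨3 * (j / 3) + 4, by omega, ?_⟩
      simp only [lab, h, Bool.false_eq_true, if_false, if_true]
      rw [if_pos (by omega)]; omega
  · by_cases h : j % 3 = 1
    · by_cases h0 : j / 3 = 0
      · exact ⟨2, by omega, by simp [lab, h, h0]⟩
      · refine ⟨3 * (j / 3 - 1), by omega, ?_⟩
        simp only [lab, h, Bool.false_eq_true, if_false, if_true]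
        rw [if_neg (by omega)]; omega
    · refine ⟨3 * (j / 3) + 5, by omega, ?_⟩
      simp only [lab, h, Bool.false_eq_true, if_false, if_true]
      rw [if_pos (by omega)]; omega
  · exact ⟨j, by omega, rfl⟩

lemma lab_match (J I i j : ℕ) (hi : i ≤ I) (hj : j ≤ J) (h1 : lab false J = lab true i)
    (h2 : lab false j = lab true I) :
    J ≠ I ∧ J ≤ I + 5 ∧ I ≤ J + 5 ∧ ¬(J % 3 = 2 ∧ I = J + 1) ∧ ¬(I % 3 = 2 ∧ J = I + 1) := by
  simp only [lab, Bool.false_eq_true, if_false, if_true] at h1 h2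
  split_ifs at h1 h2 <;> omega

lemma idx_lt (c : ℕ → Fin 4) (s : ℕ) : idx c s + 1 ≤ 3 ^ s := by
  induction s with
  | zero => simp [idx]
  | succ s ih => rw [idx, pow_succ]; omega

lemma idx_congr (c c' : ℕ → Fin 4) (s : ℕ) (h : ∀ i < s, c i = c' i) : idx c s = idx c' s := by
  induction s with
  | zero => rfl
  | succ s ih => rw [idx, idx, ih (fun i hi => h i (by omega)), h s (by omega)]

lemma idx_surj (s J : ℕ) (h : J < 3 ^ s) : ∃ c : ℕ → Fin 4, (∀ i, c i ≠ 3) ∧ idx c s = J := by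
  induction s generalizing J with
  | zero => exact ⟨fun _ => 0, by simp, by simp at h; simp [idx, h]⟩
  | succ s ih =>
    obtain ⟨c, hc, he⟩ := ih (J / 3) (by rw [pow_succ] at h; omega)
    refine ⟨Function.update c s ⟨J % 3, by omega⟩, fun i => ?_, ?_⟩
    · by_cases hi : i = s
      · subst hi; simp only [Function.update_self, Ne, Fin.ext_iff]; simp; omega
      · rw [Function.update_of_ne hi]; exact hc i
    · rw [idx, idx_congr _ c s (fun i hi => Function.update_of_ne (by omega) _ _), he]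
      simp; omega

noncomputable def ht (c : ℕ → Fin 4) : ℝ := ⨅ s, (1 - (idx c s : ℝ) / 3 ^ s)

lemma idx_up (c : ℕ → Fin 4) (s k : ℕ) : ((idx c (s + k) : ℝ) + 1) / 3 ^ (s + k) ≤ ((idx c s : ℝ) + 1) / 3 ^ s := by
  induction k with
  | zero => simp
  | succ k ih =>
    refine le_trans ?_ ih
    have h : idx c (s + k + 1) + 1 ≤ 3 * (idx c (s + k) + 1) := by rw [idx]; omega
    have h' : (idx c (s + k + 1) : ℝ) + 1 ≤ 3 * ((idx c (s + k) : ℝ) + 1) := by exact_mod_cast h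
    rw [← add_assoc, pow_succ, div_le_div_iff₀ (by positivity) (by positivity)]
    have : (0 : ℝ) < 3 ^ (s + k) := by positivity
    nlinarith

lemma idx_mono (c : ℕ → Fin 4) (s k : ℕ) : (idx c s : ℝ) / 3 ^ s ≤ (idx c (s + k) : ℝ) / 3 ^ (s + k) := by
  induction k with
  | zero => simp
  | succ k ih =>
    refine le_trans ih ?_
    have h : 3 * idx c (s + k) ≤ idx c (s + k + 1) := by rw [idx]; omega
    have h' : 3 * (idx c (s + k) : ℝ) ≤ (idx c (s + k + 1) : ℝ) := by exact_mod_cast h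
    rw [← add_assoc, pow_succ, div_le_div_iff₀ (by positivity) (by positivity)]
    have : (0 : ℝ) < 3 ^ (s + k) := by positivity
    nlinarith

lemma ht_ge (c : ℕ → Fin 4) (s : ℕ) : 1 - ((idx c s : ℝ) + 1) / 3 ^ s ≤ ht c := by
  refine le_ciInf fun t => ?_
  have h1 := idx_up c s t
  have h2 := idx_mono c t s
  rw [add_comm t s] at h2
  have h3 : (idx c (s + t) : ℝ) / 3 ^ (s + t) ≤ ((idx c (s + t) : ℝ) + 1) / 3 ^ (s + t) := by
    gcongr; linarith
  linarith

lemma ht_nonneg (c : ℕ → Fin 4) : 0 ≤ ht c := by simpa [idx] using ht_ge c 0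

lemma ht_bdd (c : ℕ → Fin 4) : BddBelow (range fun s => (1 - (idx c s : ℝ) / 3 ^ s)) := by
  refine ⟨0, ?_⟩
  rintro _ ⟨s, rfl⟩
  have h : (idx c s : ℝ) + 1 ≤ 3 ^ s := by exact_mod_cast idx_lt c s
  have : (idx c s : ℝ) / 3 ^ s ≤ 1 := by rw [div_le_one (by positivity)]; linarith
  simp only; linarith

lemma ht_le (c : ℕ → Fin 4) (s : ℕ) : ht c ≤ 1 - (idx c s : ℝ) / 3 ^ s := ciInf_le (ht_bdd c) s

lemma ht_le_one (c : ℕ → Fin 4) : ht c ≤ 1 := by simpa [idx] using ht_le c 0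

lemma ht_zero (c : ℕ → Fin 4) (h : ∀ i, c i = 0) : ht c = 1 := by
  have : ∀ s, idx c s = 0 := by
    intro s; induction s with
    | zero => rfl
    | succ s ih => simp [idx, ih, h]
  simp [ht, this]

lemma cont_fin {T : Type} [TopologicalSpace T] (F : (ℕ → Fin 4) → T) (P : ℕ)
    (h : ∀ x y, (∀ i < P, x i = y i) → F x = F y) : Continuous F := by
  have : F = (fun w : Fin P → Fin 4 => F (fun i => if hi : i < P then w ⟨i, hi⟩ else 0)) ∘
      (fun x (i : Fin P) => x i) := by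
    ext x; exact h _ _ fun i hi => by simp [hi]
  rw [this]
  exact continuous_of_discreteTopology.comp (by fun_prop)

lemma closed_ht (a : ℝ) : IsClosed {c | a ≤ ht c} := by
  have : {c | a ≤ ht c} = ⋂ s, {c | a ≤ 1 - (idx c s : ℝ) / 3 ^ s} := by
    ext c; simp only [mem_ofPred_eq, mem_iInter, ht]; exact le_ciInf_iff (ht_bdd c)
  rw [this]
  exact isClosed_iInter fun s => isClosed_le continuous_const
    (cont_fin _ s fun x y h => by rw [idx_congr x y s h])

def sh (p : ℕ) (x : ℕ → Fin 4) : ℕ → Fin 4 := fun i => x (p + 1 + i)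

def act (x : ℕ → Fin 4) (p s : ℕ) : Prop := x p = 3 ∧ ∀ i < s, sh p x i ≠ 3

open Classical in
noncomputable def lbl (s : ℕ) (x : ℕ → Fin 4) (b : Bool) : ℕ :=
  if act x (Nat.unpair s).1 s then lab b (idx (sh (Nat.unpair s).1 x) s) + 2 else (if b then 1 else 0)

lemma lbl_congr (s : ℕ) (x y : ℕ → Fin 4) (b : Bool) (h : ∀ i < 2 * s + 1, x i = y i) :
    lbl s x b = lbl s y b := by
  have hp := Nat.unpair_left_le s
  have h1 : ∀ i < s, sh (Nat.unpair s).1 x i = sh (Nat.unpair s).1 y i := fun i hi => h _ (by omega)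
  have h2 : act x (Nat.unpair s).1 s ↔ act y (Nat.unpair s).1 s := by
    unfold act
    rw [h _ (by omega)]
    exact and_congr_right fun _ => forall₂_congr fun i hi => by rw [h1 i hi]
  unfold lbl
  rw [idx_congr _ _ s h1]
  by_cases h3 : act y (Nat.unpair s).1 s
  · rw [if_pos h3, if_pos (h2.2 h3)]
  · rw [if_neg h3, if_neg (mt h2.1 h3)]

/-! ### the space -/

abbrev P := (ℕ → Fin 4) × Bool × ℕ

abbrev T := ℕ × ℕ × Bool × Fin 4

def X : Type := {z : P // ∃ N, ∀ i ≥ N, z.1 i ≠ 3}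

noncomputable def inv0 (z : P) (j : ℕ) : T :=
  (lbl (Nat.sqrt z.2.2) z.1 z.2.1, if z.2.2 < j then (z.2.2 + 1, z.2.1, z.1 (j - z.2.2 - 1)) else (0, false, 0))

noncomputable def inv (z : X) : ℕ → T := inv0 z.1

lemma inv_agree (z w : P) (k : ℕ) (h : inv0 z (z.2.2 + 1 + k) = inv0 w (z.2.2 + 1 + k)) :
    w.2.2 = z.2.2 ∧ w.2.1 = z.2.1 ∧ w.1 k = z.1 k := by
  have h2 := congrArg Prod.snd h
  simp only [inv0] at h2
  rw [if_pos (by omega)] at h2
  split_ifs at h2 with h3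
  · simp only [Prod.mk.injEq] at h2
    obtain ⟨a, b, c⟩ := h2
    have a' : w.2.2 = z.2.2 := by omega
    refine ⟨a', b.symm, ?_⟩
    rw [a', show z.2.2 + 1 + k - z.2.2 - 1 = k by omega] at c
    exact c.symm
  · simp at h2

lemma inv_inj : Function.Injective inv := by
  intro z w h
  have := fun k => inv_agree z.1 w.1 k (congrFun h _)
  exact Subtype.ext (Prod.ext (funext fun k => (this k).2.2.symm) (Prod.ext (this 0).2.1.symm (this 0).1.symm))

noncomputable instance : MetricSpace X := MetricSpace.induced inv inv_inj PiNat.metricSpace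

lemma dist_le_of {z w : X} {j : ℕ} (h : ∀ i < j, inv z i = inv w i) : dist z w ≤ (1 / 2) ^ j :=
  (PiNat.mem_cylinder_iff_dist_le (x := inv w) (y := inv z)).1 h

lemma eq_of_dist {z w : X} {j : ℕ} (h : dist z w < (1 / 2) ^ j) {i : ℕ} (hi : i ≤ j) : inv z i = inv w i :=
  PiNat.apply_eq_of_dist_lt (x := inv z) (y := inv w) h hi

lemma inv_ind : IsInducing inv := ⟨rfl⟩

lemma cont_inv0 : Continuous inv0 := by
  refine continuous_pi fun j => ?_
  refine continuous_prod_of_discrete_right.2 fun q => ?_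
  refine cont_fin _ (2 * Nat.sqrt q.2 + 1 + j) fun x y h => ?_
  simp only [inv0]
  rw [lbl_congr _ x y _ (fun i hi => h i (by omega))]
  split_ifs with h1
  · rw [h _ (by omega)]
  · rfl

def val (z : X) : P := z.1

lemma cont_val : Continuous val := by
  have key : ∀ (z : X) (k : ℕ), ∀ᶠ w in 𝓝 z, (val w).2.2 = (val z).2.2 ∧ (val w).2.1 = (val z).2.1 ∧
      (val w).1 k = (val z).1 k := by
    intro z k
    have h : Continuous fun w : X => inv w (z.1.2.2 + 1 + k) := (continuous_apply _).comp inv_ind.continuous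
    have := h.continuousAt (x := z) |>.eventually (p := fun t => t = inv z (z.1.2.2 + 1 + k))
      (by rw [nhds_discrete]; simp)
    exact this.mono fun w hw => inv_agree z.1 w.1 k hw.symm
  refine Continuous.prodMk (continuous_pi fun k => ?_) (Continuous.prodMk ?_ ?_)
  · exact continuous_iff_continuousAt.2 fun z =>
      (continuousAt_const (y := (val z).1 k)).congr ((key z k).mono fun w hw => hw.2.2.symm)
  · exact continuous_iff_continuousAt.2 fun z =>
      (continuousAt_const (y := (val z).2.1)).congr ((key z 0).mono fun w hw => hw.2.1.symm)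
  · exact continuous_iff_continuousAt.2 fun z =>
      (continuousAt_const (y := (val z).2.2)).congr ((key z 0).mono fun w hw => hw.1.symm)

lemma cont_of {Y : Type} [TopologicalSpace Y] (g : Y → X) (h : Continuous (val ∘ g)) : Continuous g :=
  inv_ind.continuous_iff.2 (cont_inv0.comp h)

def up (n : ℕ) (z : X) : X := ⟨(z.1.1, z.1.2.1, z.1.2.2 + n), z.2⟩

def F : X → X := up 1

lemma cont_F : Continuous F := by
  refine cont_of _ ?_
  have : val ∘ F = (fun q : P => (q.1, q.2.1, q.2.2 + 1)) ∘ val := rfl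
  rw [this]
  exact Continuous.comp (by fun_prop) cont_val

lemma F_inj : Function.Injective F := by
  intro z w h
  have := congrArg Subtype.val h
  simp only [F, up, Prod.mk.injEq] at this
  exact Subtype.ext (Prod.ext this.1 (Prod.ext this.2.1 (by omega)))

lemma up_succ (n : ℕ) (z : X) : up (n + 1) z = F (up n z) := rfl

lemma img_iter (n : ℕ) (A : Set X) : (fun A => F '' A)^[n] A = up n '' A := by
  induction n with
  | zero => simp [up]
  | succ n ih => rw [Function.iterate_succ_apply', ih, image_image]; rfl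

lemma zad_iter (u : X → ℝ) (n : ℕ) : (∀ z, (zadeh F)^[n] u (up n z) = u z) ∧
    ∀ y, (∀ z, up n z ≠ y) → (zadeh F)^[n] u y = 0 := by
  induction n with
  | zero => exact ⟨fun z => rfl, fun y h => absurd rfl (h y)⟩
  | succ n ih =>
    have h1 : ∀ (w : X → ℝ) z, zadeh F w (F z) = w z := by
      intro w z
      have : {x | F x = F z} = {z} := by ext x; simp [F_inj.eq_iff]
      simp [zadeh, this]
    rw [Function.iterate_succ_apply']
    refine ⟨fun z => by rw [up_succ, h1, ih.1], fun y h => ?_⟩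
    by_cases hy : ∃ x, F x = y
    · obtain ⟨x, rfl⟩ := hy
      rw [h1]
      exact ih.2 x fun z hz => h z (by rw [up_succ, hz])
    · have : {x | F x = y} = ∅ := by ext x; simpa using fun h => hy ⟨x, h⟩
      simp [zadeh, this]

/-! ### the hyperspace is not densely proximal -/

lemma seq_contra (J I : ℕ → ℕ) (hJ : ∀ s, J (s + 1) / 3 = J s) (hI : ∀ s, I (s + 1) / 3 = I s)
    (h : ∃ᶠ s in atTop, J s ≠ I s ∧ J s ≤ I s + 5 ∧ I s ≤ J s + 5 ∧ ¬(J s % 3 = 2 ∧ I s = J s + 1) ∧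
      ¬(I s % 3 = 2 ∧ J s = I s + 1)) : False := by
  rw [frequently_atTop] at h
  obtain ⟨s1, -, h1⟩ := h 0
  obtain ⟨s2, a2, h2⟩ := h (s1 + 1)
  obtain ⟨s3, a3, h3⟩ := h (s2 + 2)
  have ne : ∀ k, J (s1 + k) ≠ I (s1 + k) := by
    intro k
    induction k with
    | zero => exact h1.1
    | succ k ih => intro h; apply ih; rw [← hJ, ← hI]; exact congrArg (· / 3) h
  have down : ∀ k s, J (s + k) ≤ I (s + k) + 1 → I (s + k) ≤ J (s + k) + 1 → J s ≤ I s + 1 ∧ I s ≤ J s + 1 := by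
    intro k
    induction k with
    | zero => intro s a b; exact ⟨a, b⟩
    | succ k ih =>
      intro s a b
      have e1 := hJ (s + k)
      have e2 := hI (s + k)
      rw [← add_assoc] at a b
      exact ih s (by omega) (by omega)
  obtain ⟨k, rfl⟩ : ∃ k, s3 = s2 + k + 1 + 1 := ⟨s3 - s2 - 2, by omega⟩
  obtain ⟨l, rfl⟩ : ∃ l, s2 = s1 + l + 1 := ⟨s2 - s1 - 1, by omega⟩
  have e1 := hJ (s1 + l + 1 + k)
  have e2 := hI (s1 + l + 1 + k)
  have e3 := hJ (s1 + l + 1 + k + 1)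
  have e4 := hI (s1 + l + 1 + k + 1)
  have d := down k (s1 + l + 1) (by omega) (by omega)
  have e5 := hJ (s1 + l)
  have e6 := hI (s1 + l)
  have := ne l
  omega

noncomputable def jm (A : Set X) (p s : ℕ) : ℕ := sSup ((fun z : X => idx (sh p z.1.1) s) '' A)

lemma jm_bdd (A : Set X) (p s : ℕ) : BddAbove ((fun z : X => idx (sh p z.1.1) s) '' A) :=
  ⟨3 ^ s, by rintro _ ⟨z, -, rfl⟩; have := idx_lt (sh p z.1.1) s; simp only; omega⟩

lemma jm_mem {A : Set X} (hA : A.Nonempty) (p s : ℕ) : ∃ z ∈ A, idx (sh p z.1.1) s = jm A p s :=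
  Nat.sSup_mem (hA.image _) (jm_bdd A p s)

lemma jm_ge {A : Set X} {z : X} (hz : z ∈ A) (p s : ℕ) : idx (sh p z.1.1) s ≤ jm A p s :=
  le_csSup (jm_bdd A p s) ⟨z, hz, rfl⟩

lemma jm_succ {A : Set X} (hA : A.Nonempty) (p s : ℕ) : jm A p (s + 1) / 3 = jm A p s := by
  obtain ⟨z, hz, e⟩ := jm_mem hA p s
  obtain ⟨w, hw, e'⟩ := jm_mem hA p (s + 1)
  have h1 := jm_ge hz p (s + 1)
  have h2 := jm_ge hw p s
  rw [idx] at h1 e'
  omega

lemma lbl_eq {s : ℕ} {x y : ℕ → Fin 4} (h : lbl s x false = lbl s y true) :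
    x (Nat.unpair s).1 = 3 ∧
      lab false (idx (sh (Nat.unpair s).1 x) s) = lab true (idx (sh (Nat.unpair s).1 y) s) := by
  unfold lbl at h
  split_ifs at h with h1 h2 h3 <;> first | exact ⟨h1.1, by omega⟩ | omega | simp_all

def pt (b : Bool) : X := ⟨(fun _ => 0, b, 0), 0, fun _ _ => by simp⟩

lemma near_pt {b : Bool} {K : Set X} (h : hausdorffEDist {pt b} K < ENNReal.ofReal ((1 / 2) ^ 1)) {z : X}
    (hz : z ∈ K) : z.1.2.2 = 0 ∧ z.1.2.1 = b := by
  rw [hausdorffEDist_comm] at h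
  obtain ⟨y, rfl, hy⟩ := exists_edist_lt_of_hausdorffEDist_lt hz h
  rw [edist_lt_ofReal] at hy
  have := inv_agree (pt b).1 z.1 0 (eq_of_dist hy le_rfl).symm
  exact ⟨this.1, this.2.1⟩

lemma notK : ¬ DenseProxK F := by
  intro h
  obtain ⟨K, L, hK, -, hL, -, hd, hl⟩ := h {pt false} {pt true} (singleton_nonempty _) isCompact_singleton
    (singleton_nonempty _) isCompact_singleton (ENNReal.ofReal ((1 / 2) ^ 1)) (by simp)
  rw [max_lt_iff] at hd
  have hK' := fun z (hz : z ∈ K) => near_pt hd.1 hz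
  have hL' := fun z (hz : z ∈ L) => near_pt hd.2 hz
  have hf := frequently_lt_of_liminf_lt (b := ENNReal.ofReal ((1 / 2) ^ 0)) (h := by rw [hl]; simp)
  have lblof : ∀ n, ∀ z ∈ K, ∀ w ∈ L, edist (up n z) (up n w) < ENNReal.ofReal ((1 / 2) ^ 0) →
      lbl (Nat.sqrt n) z.1.1 false = lbl (Nat.sqrt n) w.1.1 true := by
    intro n z hz w hw he
    rw [edist_lt_ofReal] at he
    have := congrArg Prod.fst (eq_of_dist he le_rfl)
    simpa [inv, inv0, up, (hK' z hz).1, (hK' z hz).2, (hL' w hw).1, (hL' w hw).2] using this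
  let M : ℕ → Prop := fun s => (∀ z ∈ K, ∃ w ∈ L, lbl s z.1.1 false = lbl s w.1.1 true) ∧
    (∀ w ∈ L, ∃ z ∈ K, lbl s z.1.1 false = lbl s w.1.1 true)
  have hM : ∃ᶠ n in atTop, M (Nat.sqrt n) := by
    refine hf.mono fun n hn => ?_
    rw [img_iter, img_iter] at hn
    refine ⟨fun z hz => ?_, fun w hw => ?_⟩
    · obtain ⟨_, ⟨w, hw, rfl⟩, he⟩ := exists_edist_lt_of_hausdorffEDist_lt (mem_image_of_mem _ hz) hn
      exact ⟨w, hw, lblof n z hz w hw he⟩
    · rw [hausdorffEDist_comm] at hn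
      obtain ⟨_, ⟨z, hz, rfl⟩, he⟩ := exists_edist_lt_of_hausdorffEDist_lt (mem_image_of_mem _ hw) hn
      exact ⟨z, hz, lblof n z hz w hw (by rwa [edist_comm])⟩
  have hM2 : ∃ᶠ s in atTop, M s := by
    rw [frequently_atTop] at hM ⊢
    intro a
    obtain ⟨n, hn, hm⟩ := hM (a * a)
    exact ⟨_, Nat.le_sqrt.2 hn, hm⟩
  obtain ⟨z0, hz0⟩ := hK
  obtain ⟨N, hN⟩ := z0.2
  obtain ⟨p, hp⟩ : ∃ p, ∃ᶠ s in atTop, M s ∧ (Nat.unpair s).1 = p := by
    by_contra hc
    simp only [not_exists, not_frequently] at hc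
    have := (eventually_all_finset (Finset.range N)).2 fun p _ => hc p
    refine (hM2.and_eventually this).exists.elim fun s hs => ?_
    obtain ⟨w, -, hw⟩ := hs.1.1 z0 hz0
    have h3 := (lbl_eq hw).1
    refine hs.2 _ (Finset.mem_range.2 ?_) ⟨hs.1, rfl⟩
    by_contra h4
    exact hN _ (by omega) h3
  refine seq_contra (jm K p) (jm L p) (jm_succ ⟨z0, hz0⟩ p) (jm_succ hL p) (hp.mono fun s hs => ?_)
  obtain ⟨z, hz, e⟩ := jm_mem ⟨z0, hz0⟩ p s
  obtain ⟨w, hw, e'⟩ := jm_mem hL p s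
  obtain ⟨w1, hw1, a1⟩ := hs.1.1 z hz
  obtain ⟨z1, hz1, a2⟩ := hs.1.2 w hw
  have b1 := (lbl_eq a1).2
  have b2 := (lbl_eq a2).2
  rw [hs.2] at b1 b2
  rw [e] at b1
  rw [e'] at b2
  exact lab_match _ _ _ _ (jm_ge hw1 p s) (jm_ge hz1 p s) b1 b2

/-! ### the fuzzy extension is densely proximal -/

def glue (p : ℕ) (w c : ℕ → Fin 4) : ℕ → Fin 4 :=
  fun i => if i < p then w i else if i = p then 3 else c (i - p - 1)

lemma sh_glue (p : ℕ) (w c : ℕ → Fin 4) : sh p (glue p w c) = c := by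
  ext i; simp only [sh, glue]; rw [if_neg (by omega), if_neg (by omega)]; congr 2; omega

def fib (p : ℕ) (z : P) (c : ℕ → Fin 4) (hc : ∀ i, c i ≠ 3) : X :=
  ⟨(glue p z.1 c, z.2), p + 1, fun i hi => by
    simp only [glue]; rw [if_neg (by omega), if_neg (by omega)]; exact hc _⟩

def q (p : ℕ) (z : X) : (Fin p → Fin 4) × Bool × ℕ := (fun i => z.1.1 i, z.1.2)

lemma cont_q (p : ℕ) : Continuous (q p) := by
  have : q p = (fun r : P => ((fun i : Fin p => r.1 i), r.2)) ∘ val := rfl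
  rw [this]; exact Continuous.comp (by fun_prop) cont_val

lemma q_fib (p : ℕ) (z : X) (c : ℕ → Fin 4) (hc : ∀ i, c i ≠ 3) : q p (fib p z.1 c hc) = q p z := by
  simp [q, fib, glue]

noncomputable def U (u : X → ℝ) (p : ℕ) (r : (Fin p → Fin 4) × Bool × ℕ) : ℝ := sSup (u '' (q p ⁻¹' {r}))

def good (p : ℕ) (y : X) : Prop := y.1.1 p = 3 ∧ ∀ i, sh p y.1.1 i ≠ 3

lemma good_fib (p : ℕ) (z : P) (c : ℕ → Fin 4) (hc : ∀ i, c i ≠ 3) : good p (fib p z c hc) :=
  ⟨by simp [fib, glue], by simpa [fib, sh_glue] using hc⟩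

open Classical in
noncomputable def app (u : X → ℝ) (p : ℕ) (y : X) : ℝ :=
  if good p y then min (ht (sh p y.1.1)) (U u p (q p y)) else 0

section
variable {u : X → ℝ} (hu : ∀ x, u x ∈ Icc (0 : ℝ) 1) (p : ℕ)
include hu

lemma U_nonneg (r) : 0 ≤ U u p r := Real.sSup_nonneg (by rintro _ ⟨z, -, rfl⟩; exact (hu z).1)

lemma U_ge (z : X) : u z ≤ U u p (q p z) :=
  le_csSup ⟨1, by rintro _ ⟨z, -, rfl⟩; exact (hu z).2⟩ ⟨z, rfl, rfl⟩

lemma app_mem (y : X) : app u p y ∈ Icc (0 : ℝ) 1 := by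
  unfold app
  split_ifs
  · exact ⟨le_min (ht_nonneg _) (U_nonneg hu p _), (min_le_left _ _).trans (ht_le_one _)⟩
  · simp

lemma app_fib (z : X) (c : ℕ → Fin 4) (hc : ∀ i, c i ≠ 3) {t : ℝ} (h1 : t ≤ ht c) (h2 : t ≤ u z) :
    t ≤ app u p (fib p z.1 c hc) := by
  unfold app
  rw [if_pos (good_fib _ _ _ _), q_fib]
  exact le_min (by simpa [fib, sh_glue] using h1) (h2.trans (U_ge hu p z))

end

lemma app_pos {u : X → ℝ} {p : ℕ} {y : X} {t : ℝ} (ht0 : 0 ≤ t) (h : t < app u p y) :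
    good p y ∧ t < ht (sh p y.1.1) ∧ ∃ z, q p z = q p y ∧ t < u z := by
  unfold app at h
  split_ifs at h with hg
  · refine ⟨hg, h.trans_le (min_le_left _ _), ?_⟩
    by_contra hc
    push Not at hc
    have : U u p (q p y) ≤ t := Real.sSup_le (by rintro _ ⟨z, hz, rfl⟩; exact hc z hz) ht0
    linarith [min_le_right (ht (sh p y.1.1)) (U u p (q p y))]
  · linarith

lemma lev_bdd {u : X → ℝ} (hu : IsFuzzy u) : ∃ M, ∀ z, 0 < u z → z.1.2.2 ≤ M := by
  have h : Continuous fun z : X => (val z).2.2 := continuous_snd.comp (continuous_snd.comp cont_val)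
  obtain ⟨M, hM⟩ := hu.2.2.2.bddAbove_image h.continuousOn
  exact ⟨M, fun z hz => hM ⟨z, subset_closure hz, rfl⟩⟩

lemma app_fuzzy {u : X → ℝ} (hu : IsFuzzy u) (p : ℕ) : IsFuzzy (app u p) := by
  have hx : Continuous fun z : X => (val z).1 := continuous_fst.comp cont_val
  have hg : IsClosed {y | good p y} := by
    have : {y | good p y} = {y : X | (val y).1 p = 3} ∩ ⋂ i, {y : X | (val y).1 (p + 1 + i) ≠ 3} := by
      ext y; simp [good, sh, val]
    rw [this]
    refine (isClosed_eq ((continuous_apply p).comp hx) continuous_const).inter (isClosed_iInter fun i => ?_)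
    exact (isClosed_discrete {a : Fin 4 | a ≠ 3}).preimage ((continuous_apply _).comp hx)
  refine ⟨app_mem hu.1 p, ?_, ?_, ?_⟩
  · refine upperSemicontinuous_iff_isClosed_preimage.2 fun a => ?_
    by_cases ha : a ≤ 0
    · have : app u p ⁻¹' Ici a = univ := eq_univ_of_forall fun y => ha.trans (app_mem hu.1 p y).1
      rw [this]; exact isClosed_univ
    · have : app u p ⁻¹' Ici a = {y | good p y} ∩ ((fun y : X => sh p (val y).1) ⁻¹' {c | a ≤ ht c} ∩
          q p ⁻¹' {r | a ≤ U u p r}) := by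
        ext y
        simp only [mem_preimage, mem_Ici, mem_inter_iff, mem_ofPred_eq, app, val]
        split_ifs with h <;> simp [h, ha]
      rw [this]
      refine hg.inter (((closed_ht a).preimage ?_).inter ((isClosed_discrete _).preimage (cont_q p)))
      exact continuous_pi fun i => (continuous_apply _).comp hx
  · obtain ⟨z, hz⟩ := hu.2.2.1
    refine ⟨fib p z.1 (fun _ => 0) (by simp), le_antisymm (app_mem hu.1 p _).2 ?_⟩
    exact app_fib hu.1 p z _ _ (ht_zero _ fun _ => rfl).ge hz.ge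
  · obtain ⟨M, hM⟩ := lev_bdd hu
    let G : (ℕ → Fin 4) × (ℕ → Fin 3) × Bool × Fin (M + 1) → X := fun r =>
      fib p (r.1, r.2.2.1, r.2.2.2.val) (fun i => (r.2.1 i).castSucc) (fun i => (Fin.castSucc_lt_last _).ne)
    have hG : Continuous G := by
      refine cont_of _ (Continuous.prodMk (continuous_pi fun i => ?_) ?_)
      · simp only [G, val, fib, glue, Function.comp]
        split_ifs
        · fun_prop
        · fun_prop
        · exact (continuous_of_discreteTopology (f := Fin.castSucc)).comp (by fun_prop)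
      · exact (continuous_of_discreteTopology (f := fun r : Bool × Fin (M + 1) => (r.1, r.2.val))).comp
          (continuous_snd.comp continuous_snd)
    refine (isCompact_range hG).of_isClosed_subset isClosed_closure
      (closure_minimal (fun y hy => ?_) (isCompact_range hG).isClosed)
    obtain ⟨h1, -, z, h2, h3⟩ := app_pos le_rfl hy
    have h4 : y.1.2.2 ≤ M := by
      have := congrArg (fun r => r.2.2) h2
      simp only [q] at this
      rw [← this]; exact hM z h3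
    refine ⟨(y.1.1, fun i => (sh p y.1.1 i).castPred (h1.2 i), y.1.2.1, ⟨y.1.2.2, by omega⟩), ?_⟩
    refine Subtype.ext (Prod.ext (funext fun i => ?_) rfl)
    simp only [G, fib, glue, Fin.castSucc_castPred, sh]
    split_ifs with a b
    · rfl
    · rw [b, h1.1]
    · rw [show p + 1 + (i - p - 1) = i by omega]

lemma dist_q {p j : ℕ} {z y : X} (h : q p z = q p y) (h1 : 2 * z.1.2.2 + 1 ≤ p) (h2 : j ≤ p) :
    dist z y ≤ (1 / 2) ^ j := by
  simp only [q, Prod.mk.injEq] at h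
  have hx : ∀ i < p, z.1.1 i = y.1.1 i := fun i hi => congrFun h.1 ⟨i, hi⟩
  refine dist_le_of fun i hi => ?_
  simp only [inv, inv0, ← h.2]
  have := Nat.sqrt_le_self z.1.2.2
  rw [lbl_congr _ z.1.1 y.1.1 _ (fun i hi => hx i (by omega))]
  split_ifs
  · rw [hx _ (by omega)]
  · rfl

lemma edist_pair {z y : X} {s t δ : ℝ} (h1 : dist z y ≤ δ) (h2 : |s - t| ≤ δ) :
    edist (z, s) (y, t) ≤ ENNReal.ofReal δ := by
  rw [edist_dist]
  exact ENNReal.ofReal_le_ofReal (by rw [Prod.dist_eq]; exact max_le h1 h2)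

lemma low {w : X → ℝ} (hw : ∀ y, 0 ≤ w y) {y : X} {t δ : ℝ} (h0 : 0 ≤ t) (h : t ≤ δ) :
    ∃ r ∈ endo w, edist (y, t) r ≤ ENNReal.ofReal δ :=
  ⟨(y, 0), ⟨by simp, hw y⟩, edist_pair (by simpa using h0.trans h) (by rw [sub_zero, abs_of_nonneg h0]; exact h)⟩

lemma close {u : X → ℝ} (hu : IsFuzzy u) {M p j : ℕ} (hM : ∀ z, 0 < u z → z.1.2.2 ≤ M)
    (h1 : 2 * M + 1 ≤ p) (h2 : j ≤ p) : dE u (app u p) ≤ ENNReal.ofReal ((1 / 2) ^ j) := by
  have hδ : (0 : ℝ) < (1 / 2) ^ j := by positivity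
  refine hausdorffEDist_le_of_mem_edist ?_ ?_
  · rintro ⟨z, t⟩ ⟨ht1, ht2⟩
    simp only at ht1 ht2
    by_cases h : t ≤ (1 / 2) ^ j
    · exact low (fun y => (app_mem hu.1 p y).1) ht1.1 h
    · have hz := hM z (by linarith)
      refine ⟨(fib p z.1 (fun _ => 0) (by simp), t), ⟨ht1, ?_⟩, edist_pair ?_ (by simp)⟩
      · exact app_fib hu.1 p z (fun _ => 0) (by simp) (by rw [ht_zero _ fun _ => rfl]; exact ht1.2) ht2
      · exact dist_q (q_fib p z (fun _ => 0) (by simp)).symm (by omega) h2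
  · rintro ⟨y, t⟩ ⟨ht1, ht2⟩
    simp only at ht1 ht2
    by_cases h : t ≤ (1 / 2) ^ j
    · exact low (fun y => (hu.1 y).1) ht1.1 h
    · obtain ⟨-, -, z, a, b⟩ := app_pos (t := t - (1 / 2) ^ j) (u := u) (p := p) (y := y) (by linarith) (by linarith)
      have hz := hM z (by linarith)
      refine ⟨(z, t - (1 / 2) ^ j), ⟨⟨by simp only; linarith, by simp only; linarith [ht1.2]⟩, b.le⟩,
        edist_pair ?_ (by simp)⟩
      rw [dist_comm]; exact dist_q a (by omega) h2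

lemma iter_nonneg {w : X → ℝ} (hw : ∀ y, 0 ≤ w y) (n : ℕ) (y : X) : 0 ≤ (zadeh F)^[n] w y := by
  by_cases h : ∃ z, up n z = y
  · obtain ⟨z, rfl⟩ := h; rw [(zad_iter w n).1]; exact hw z
  · rw [(zad_iter w n).2 y fun z hz => h ⟨z, hz⟩]

lemma half {u v : X → ℝ} (hu : IsFuzzy u) (hv : IsFuzzy v) {M p s j : ℕ}
    (hM : ∀ z, 0 < u z → z.1.2.2 ≤ M) (hM' : ∀ z, 0 < v z → z.1.2.2 ≤ M) (hp : (Nat.unpair s).1 = p)
    (hs : M ≤ s) (hj : j ≤ s) (hδ : (6 : ℝ) / 3 ^ s ≤ (1 / 2) ^ j) :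
    ∀ r ∈ endo ((zadeh F)^[s * s] (app u p)), ∃ r' ∈ endo ((zadeh F)^[s * s] (app v p)),
      edist r r' ≤ ENNReal.ofReal ((1 / 2) ^ j) := by
  rintro ⟨y, t⟩ ⟨ht1, ht2⟩
  simp only at ht1 ht2
  have hδ0 : (0 : ℝ) < (1 / 2) ^ j := by positivity
  by_cases h : t ≤ (1 / 2) ^ j
  · exact low (iter_nonneg (fun y => (app_mem hv.1 p y).1) _) ht1.1 h
  have hy : ∃ z, up (s * s) z = y := by
    by_contra hc
    rw [(zad_iter _ _).2 y fun z hz => hc ⟨z, hz⟩] at ht2
    linarith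
  obtain ⟨y0, rfl⟩ := hy
  rw [(zad_iter _ _).1] at ht2
  obtain ⟨g, a1, z, a2, a3⟩ := app_pos (t := (1 / 2) ^ j) hδ0.le (lt_of_lt_of_le (not_le.1 h) ht2)
  have a4 : t ≤ ht (sh p y0.1.1) := by
    unfold app at ht2; rw [if_pos g] at ht2; exact ht2.trans (min_le_left _ _)
  have l1 : y0.1.2.2 ≤ M := by
    have := congrArg (fun r => r.2.2) a2
    simp only [q] at this
    rw [← this]; exact hM z (by linarith)
  obtain ⟨w, hw⟩ := hv.2.2.1
  have l2 : w.1.2.2 ≤ M := hM' w (by rw [hw]; simp)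
  obtain ⟨i, hi, hlab⟩ := lab_cover y0.1.2.1 w.1.2.1 (idx (sh p y0.1.1) s)
  have b1 := ht_le (sh p y0.1.1) s
  have p3 : (0 : ℝ) < 3 ^ s := by positivity
  have hi' : (i : ℝ) ≤ idx (sh p y0.1.1) s + 5 := by exact_mod_cast hi
  have b2 : ((i : ℝ) + 1) / 3 ^ s ≤ (idx (sh p y0.1.1) s : ℝ) / 3 ^ s + 6 / 3 ^ s := by
    rw [← add_div]; exact div_le_div_of_nonneg_right (by linarith) p3.le
  have b3 : i < 3 ^ s := by
    have : ((i : ℝ) + 1) / 3 ^ s < 1 := by linarith
    rw [div_lt_one p3] at this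
    have : (i : ℝ) < 3 ^ s := by linarith
    exact_mod_cast this
  obtain ⟨c, hc, hci⟩ := idx_surj s i b3
  have b4 := ht_ge c s
  rw [hci] at b4
  refine ⟨(up (s * s) (fib p w.1 c hc), t - (1 / 2) ^ j),
    ⟨⟨by simp only; linarith, by simp only; linarith [ht1.2]⟩, ?_⟩, edist_pair ?_ (by simp)⟩
  · simp only
    rw [(zad_iter _ _).1]
    exact app_fib hv.1 p w c hc (by linarith) (by rw [hw]; linarith [ht1.2])
  · refine dist_le_of fun k hk => ?_
    have hss : s ≤ s * s := Nat.le_mul_self s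
    have sq : ∀ m ≤ M, Nat.sqrt (m + s * s) = s := fun m hm => by
      rw [add_comm]; exact Nat.sqrt_add_eq s (by omega)
    have g' := good_fib p w.1 c hc
    simp only [inv, inv0, up]
    rw [if_neg (by omega), if_neg (by simp only [fib]; omega), sq _ l1, sq _ (by simpa [fib] using l2)]
    unfold lbl
    rw [hp, if_pos ⟨g.1, fun i _ => g.2 i⟩, if_pos ⟨g'.1, fun i _ => g'.2 i⟩, hlab]
    simp [fib, sh_glue, hci]

lemma small {ε : ℝ≥0∞} (hε : 0 < ε) : ∃ j : ℕ, ENNReal.ofReal ((1 / 2) ^ j) < ε := by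
  have h := ENNReal.tendsto_ofReal (tendsto_pow_atTop_nhds_zero_of_lt_one (r := (1 / 2 : ℝ)) (by norm_num) (by norm_num))
  rw [ENNReal.ofReal_zero] at h
  exact (h.eventually (gt_mem_nhds hε)).exists

lemma yesF : DenseProxF F := by
  intro u v hu hv ε hε
  obtain ⟨M1, h1⟩ := lev_bdd hu
  obtain ⟨M2, h2⟩ := lev_bdd hv
  have hM : ∀ z, 0 < u z → z.1.2.2 ≤ M1 + M2 := fun z hz => (h1 z hz).trans (by omega)
  have hM' : ∀ z, 0 < v z → z.1.2.2 ≤ M1 + M2 := fun z hz => (h2 z hz).trans (by omega)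
  obtain ⟨j, hj⟩ := small hε
  set p := 2 * (M1 + M2) + 1 + j with hp
  refine ⟨app u p, app v p, app_fuzzy hu p, app_fuzzy hv p,
    max_lt ((close hu hM (by omega) (by omega)).trans_lt hj) ((close hv hM' (by omega) (by omega)).trans_lt hj), ?_⟩
  refine le_antisymm (le_of_forall_gt_imp_ge_of_dense fun η hη => ?_) zero_le
  obtain ⟨k, hk⟩ := small hη
  refine liminf_le_of_frequently_le' (frequently_atTop.2 fun a => ?_)
  set s := Nat.pair p (a + M1 + M2 + k + 3) with hs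
  have s1 : a + M1 + M2 + k + 3 ≤ s := Nat.right_le_pair _ _
  have s2 : (Nat.unpair s).1 = p := by simp [hs]
  have hδ : (6 : ℝ) / 3 ^ s ≤ (1 / 2) ^ k := by
    obtain ⟨m, hm⟩ : ∃ m, s = k + 3 + m := ⟨s - k - 3, by omega⟩
    rw [hm, one_div, inv_pow, ← one_div, div_le_div_iff₀ (by positivity) (by positivity), pow_add, pow_add]
    have a1 : (2 : ℝ) ^ k ≤ 3 ^ k := by gcongr; norm_num
    have a2 : (1 : ℝ) ≤ 3 ^ m := one_le_pow₀ (by norm_num)
    have a3 : (0 : ℝ) < 3 ^ k := by positivity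
    nlinarith
  refine ⟨s * s, le_trans (by omega) (Nat.le_mul_self s), le_trans ?_ hk.le⟩
  exact hausdorffEDist_le_of_mem_edist (half hu hv hM hM' s2 (by omega) (by omega) hδ)
    (half hv hu hM' hM s2 (by omega) (by omega) hδ)

theorem result : ∃ (X : Type) (_ : MetricSpace X) (f : X → X),
    Continuous f ∧ DenseProxF f ∧ ¬ DenseProxK f :=
  ⟨X, inferInstance, F, cont_F, yesF, notK⟩

end Pool.Agent.Results.MP_24ecc9_an.No
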